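import Pool.Agent.N14.TwoN.Num.Chk

set_option autoImplicit false

namespace Pool.Agent.N14.TwoN

theorem lpP_6 : lpAll 72 11 true = true := by decide +kernel

theorem lpM_6 : lpAll 72 11 false = true := by decide +kernel


end Pool.Agent.N14.TwoN
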