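import Pool.Agent.N14.TwoN.Num.Chk

set_option autoImplicit false

namespace Pool.Agent.N14.TwoN

theorem chk_8 : ((Data.drop (23 * 8)).take 23).all (chkS ctf) = true := by decide +kernel

theorem chk_9 : ((Data.drop (23 * 9)).take 23).all (chkS ctf) = true := by decide +kernel


end Pool.Agent.N14.TwoN
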