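import Pool.Agent.N14.TwoN.Num.Chk

set_option autoImplicit false

namespace Pool.Agent.N14.TwoN

theorem row_0 : ((Data.map rowD).drop (23 * 0)).take 23 = (RW.drop (23 * 0)).take 23 := by
  decide +kernel

theorem row_1 : ((Data.map rowD).drop (23 * 1)).take 23 = (RW.drop (23 * 1)).take 23 := by
  decide +kernel

theorem row_2 : ((Data.map rowD).drop (23 * 2)).take 23 = (RW.drop (23 * 2)).take 23 := by
  decide +kernel

theorem row_3 : ((Data.map rowD).drop (23 * 3)).take 23 = (RW.drop (23 * 3)).take 23 := by
  decide +kernel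

theorem row_4 : ((Data.map rowD).drop (23 * 4)).take 23 = (RW.drop (23 * 4)).take 23 := by
  decide +kernel


end Pool.Agent.N14.TwoN
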