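import Pool.Agent.N14.TwoN.Table
import Pool.Agent.N14.TwoN.Data
import Pool.Agent.N14.TwoN.Rows
import Pool.Agent.N14.TwoN.Lam

set_option autoImplicit false

namespace Pool.Agent.N14.TwoN

/-- the packed row of one set -/
def rowD (t : List ℕ) : ℤ × ℕ := rowS ctf TLf t

/-- the dual certificate checks for the vertices `a+1, …, a+len` -/
def lpAll (a len : ℕ) (pos : Bool) : Bool :=
  (List.range' a len).all (fun i => lpCheck RW (i + 1) pos ((if pos then lamP else lamM).getD i 0))

/-- the checks of the packed table -/
def tAll (a len : ℕ) : Bool :=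
  (List.range' a len).all (fun i => decide (TLf (2 * i + 1) = packT ctf (2 * i + 1) 83))

end Pool.Agent.N14.TwoN
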