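import Pool.Agent.N14.TwoN.Num.Chk

set_option autoImplicit false

namespace Pool.Agent.N14.TwoN

theorem tab_0 : tAll 0 6 = true := by decide +kernel

theorem tab_1 : tAll 6 6 = true := by decide +kernel

theorem tab_2 : tAll 12 6 = true := by decide +kernel

theorem tab_3 : tAll 18 6 = true := by decide +kernel

theorem tab_4 : tAll 24 6 = true := by decide +kernel

theorem tab_5 : tAll 30 6 = true := by decide +kernel

theorem tab_6 : tAll 36 6 = true := by decide +kernel


end Pool.Agent.N14.TwoN
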